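import Mathlib

/-!
# Distinct values of `a_i + a_j + (j - i)`
-/

set_option autoImplicit false

namespace Pool.Agent.R183.SD

open Finset

/-- `S(a) = {a_i + a_j + (j - i) : 1 ≤ i < j ≤ n}` -/
def S (n : ℕ) (a : ℕ → ℕ) : Finset ℤ :=
  ((Icc 1 n ×ˢ Icc 1 n).filter fun q => q.1 < q.2).image
    fun q => (a q.1 : ℤ) + (a q.2 : ℤ) + ((q.2 : ℤ) - (q.1 : ℤ))

/-- `P(c)`: `|S(a)| ≥ δ n^c` for all large `n` and all sequences with `a_i ≤ n^c` -/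
def P (c : ℝ) : Prop :=
  ∃ δ : ℝ, 0 < δ ∧ ∃ n₀ : ℕ, ∀ n : ℕ, n₀ ≤ n → 2 ≤ n → ∀ a : ℕ → ℕ,
    (∀ i ∈ Icc 1 n, (a i : ℝ) ≤ (n : ℝ) ^ c) → δ * (n : ℝ) ^ c ≤ ((S n a).card : ℝ)

/-- `c'` is the supremum of the `c ∈ [0,1]` for which `P(c)` holds -/
noncomputable def c' : ℝ := sSup {c : ℝ | 0 ≤ c ∧ c ≤ 1 ∧ P c}

lemma mem_S {n : ℕ} {a : ℕ → ℕ} {i j : ℕ} (hi : 1 ≤ i) (hij : i < j) (hj : j ≤ n) :
    (a i : ℤ) + (a j : ℤ) + ((j : ℤ) - (i : ℤ)) ∈ S n a := by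
  unfold S
  rw [mem_image]
  exact ⟨(i, j), by simp only [mem_filter, mem_product, mem_Icc]; omega, rfl⟩

end Pool.Agent.R183.SD
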